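import Pool.Agent.W743.HP.Stm
/-! HP-FH (MP_8f331d_an): the holomorphic function `t z evQ z (SS p)`. -/
set_option autoImplicit false
open Set Filter Topology

namespace Pool.Agent.W137.HP
open Pool.Agent.W743.HP

lemma evQ_ue (z : ℂ) (n : ℕ) : evQ z (ue n) = if ‖z‖ ≤ 1 then z ^ (4 * n) else 0 := by
  unfold evQ; rw [lift_ue]

lemma evQ_hasSum (z : ℂ) (hz : ‖z‖ ≤ 1) (p : Q) :
    HasSum (fun n => (p n : ℂ) * z ^ (4 * n)) (evQ z p) := by
  have h : HasSum (fun n : ℕ => (p n : ℝ) • (if ‖z‖ ≤ 1 then z ^ (4 * n) else 0 : ℂ)) (evQ z p) :=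
    lift_hasSum (fun n : ℕ => if ‖z‖ ≤ 1 then z ^ (4 * n) else 0) 1 (norm_evQ_aux z) p
  refine h.congr_fun fun n => ?_
  rw [if_pos hz, Complex.real_smul]

lemma evQ_SS_hasSum (z : ℂ) (hz : ‖z‖ ≤ 1) (p : Q) :
    HasSum (fun n => (p n : ℂ) * (z ^ (4 * n) / (4 * n + 1))) (evQ z (SS p)) := by
  have h := lift_hasSum (fun n : ℕ => (1 / (4 * n + 1) : ℝ) • (ue n : Q)) 1 norm_SS_aux p
  have h2 := h.mapL (evQ z)
  refine h2.congr_fun fun n => ?_
  rw [map_smul, map_smul, evQ_ue, if_pos hz, Complex.real_smul, Complex.real_smul]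
  push_cast
  ring

lemma evQ_I (z : ℂ) : evQ (Complex.I * z) = evQ z := by
  apply L1.ext_ue
  intro n
  rw [evQ_ue, evQ_ue]
  have h1 : ‖Complex.I * z‖ = ‖z‖ := by simp
  rw [h1, mul_pow, pow_mul Complex.I, Complex.I_pow_four, one_pow, one_mul]

lemma hasDeriv (p : Q) (z : ℂ) (hz : z ∈ Metric.ball (0 : ℂ) 1) :
    HasDerivAt (fun z => z * evQ z (SS p)) (evQ z p) z := by
  have hb : ∀ y ∈ Metric.ball (0 : ℂ) 1, ‖y‖ ≤ 1 := fun y hy => by
    rw [mem_ball_zero_iff] at hy; exact hy.le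
  have h1 : HasDerivAt (fun w : ℂ => ∑' n : ℕ, (p n : ℂ) * (w ^ (4 * n + 1) / (4 * n + 1)))
      (∑' n : ℕ, (p n : ℂ) * z ^ (4 * n)) z := by
    refine hasDerivAt_tsum_of_isPreconnected (𝕜 := ℂ) (u := fun n => |p n|)
      (g := fun n w => (p n : ℂ) * (w ^ (4 * n + 1) / (4 * n + 1)))
      (g' := fun n w => (p n : ℂ) * w ^ (4 * n)) (t := Metric.ball (0 : ℂ) 1) (y₀ := 0)
      (L1.summable p) Metric.isOpen_ball (convex_ball _ _).isPreconnected ?_ ?_ (by simp) ?_ hz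
    · intro n y _
      have h2 := ((hasDerivAt_pow (4 * n + 1) y).div_const ((4 * n + 1 : ℂ))).const_mul (p n : ℂ)
      have h3 : (4 * (n : ℂ) + 1) ≠ 0 := by
        have : ((4 * n + 1 : ℕ) : ℂ) ≠ 0 := Nat.cast_ne_zero.2 (by omega)
        push_cast at this
        exact this
      have h5 : (p n : ℂ) * (((4 * n + 1 : ℕ) : ℂ) * y ^ (4 * n + 1 - 1) / (4 * n + 1)) =
          (p n : ℂ) * y ^ (4 * n) := by
        rw [Nat.add_sub_cancel]
        push_cast
        field_simp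
      rw [h5] at h2
      exact h2
    · intro n y hy
      rw [norm_mul, norm_pow, Complex.norm_real, Real.norm_eq_abs]
      calc |p n| * ‖y‖ ^ (4 * n) ≤ |p n| * 1 :=
            mul_le_mul_of_nonneg_left (pow_le_one₀ (norm_nonneg _) (hb y hy)) (abs_nonneg _)
        _ = |p n| := mul_one _
    · refine summable_zero.congr fun n => ?_
      simp
  have h4 : (fun z => z * evQ z (SS p)) =ᶠ[𝓝 z]
      (fun w : ℂ => ∑' n : ℕ, (p n : ℂ) * (w ^ (4 * n + 1) / (4 * n + 1))) := by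
    filter_upwards [Metric.isOpen_ball.mem_nhds hz] with w hw
    rw [← ((evQ_SS_hasSum w (hb w hw) p).mul_left w).tsum_eq]
    apply tsum_congr
    intro n
    ring
  rw [(evQ_hasSum z (hb z hz) p).tsum_eq] at h1
  exact h1.congr_of_eventuallyEq h4

lemma evQ_norm (z : ℂ) (p : Q) : ‖evQ z p‖ ≤ ‖p‖ := by
  have h1 : ‖evQ z‖ ≤ 1 := norm_lift_le _ 1 zero_le_one (norm_evQ_aux z)
  calc ‖evQ z p‖ ≤ ‖evQ z‖ * ‖p‖ := (evQ z).le_opNorm p
    _ ≤ 1 * ‖p‖ := mul_le_mul_of_nonneg_right h1 (norm_nonneg _)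
    _ = ‖p‖ := one_mul _

lemma nonconst (p : Q) (d : ℂ) (h : ∀ z ∈ Metric.ball (0 : ℂ) 1, evQ z p = d) : p 1 = 0 := by
  have h0 : d = (p 0 : ℂ) := by
    rw [← h 0 (by simp)]
    rw [← (evQ_hasSum 0 (by simp) p).tsum_eq, tsum_eq_single 0]
    · simp
    · intro n hn
      have : 4 * n ≠ 0 := by omega
      rw [zero_pow this, mul_zero]
  have key : ∀ r : ℝ, 0 < r → r < 1 → |p 1| ≤ r ^ 4 * ‖p‖ := by
    intro r hr0 hr1
    have hrz : ‖(r : ℂ)‖ = r := by rw [Complex.norm_real, Real.norm_eq_abs, abs_of_pos hr0]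
    have h1 := h (r : ℂ) (by rw [mem_ball_zero_iff, hrz]; exact hr1)
    have h2 := evQ_hasSum (r : ℂ) (by rw [hrz]; exact hr1.le) p
    rw [h1, h0] at h2
    have h3 := h2.summable.sum_add_tsum_nat_add 2
    rw [h2.tsum_eq, Finset.sum_range_succ, Finset.sum_range_one] at h3
    simp only [mul_zero, pow_zero, mul_one] at h3
    have h4 : (p 1 : ℂ) * (r : ℂ) ^ 4 = -∑' i : ℕ, (p (i + 2) : ℂ) * (r : ℂ) ^ (4 * (i + 2)) := by
      linear_combination h3
    have h5 : ‖∑' i : ℕ, (p (i + 2) : ℂ) * (r : ℂ) ^ (4 * (i + 2))‖ ≤ ‖p‖ * r ^ 8 := by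
      have hs : Summable (fun i : ℕ => |p (i + 2)| * r ^ 8) :=
        ((summable_nat_add_iff 2).2 (L1.summable p)).mul_right _
      have h6 : ‖∑' i : ℕ, (p (i + 2) : ℂ) * (r : ℂ) ^ (4 * (i + 2))‖ ≤
          ∑' i : ℕ, |p (i + 2)| * r ^ 8 := by
        refine tsum_of_norm_bounded hs.hasSum fun i => ?_
        rw [norm_mul, norm_pow, hrz, Complex.norm_real, Real.norm_eq_abs]
        refine mul_le_mul_of_nonneg_left ?_ (abs_nonneg _)
        exact pow_le_pow_of_le_one hr0.le hr1.le (by omega)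
      refine h6.trans ?_
      rw [tsum_mul_right]
      refine mul_le_mul_of_nonneg_right ?_ (by positivity)
      have h7 := (L1.summable p).sum_add_tsum_nat_add 2
      rw [(L1.hasSum_norm p).tsum_eq] at h7
      have h8 : 0 ≤ ∑ i ∈ Finset.range 2, |p i| := Finset.sum_nonneg fun i _ => abs_nonneg _
      linarith
    have h6 : |p 1| * r ^ 4 ≤ ‖p‖ * r ^ 8 := by
      have h7 : ‖(p 1 : ℂ) * (r : ℂ) ^ 4‖ = |p 1| * r ^ 4 := by
        rw [norm_mul, norm_pow, hrz, Complex.norm_real, Real.norm_eq_abs]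
      rw [← h7, h4, norm_neg]
      exact h5
    have h7 : (0 : ℝ) < r ^ 4 := by positivity
    have h8 : |p 1| * r ^ 4 ≤ (r ^ 4 * ‖p‖) * r ^ 4 := by
      calc |p 1| * r ^ 4 ≤ ‖p‖ * r ^ 8 := h6
        _ = (r ^ 4 * ‖p‖) * r ^ 4 := by ring
    exact le_of_mul_le_mul_right h8 h7
  have hlim : Tendsto (fun r : ℝ => r ^ 4 * ‖p‖) (𝓝[>] 0) (𝓝 0) := by
    have : Tendsto (fun r : ℝ => r ^ 4 * ‖p‖) (𝓝 0) (𝓝 ((0:ℝ) ^ 4 * ‖p‖)) := by
      apply Continuous.tendsto
      fun_prop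
    rw [zero_pow (by norm_num), zero_mul] at this
    exact this.mono_left nhdsWithin_le_nhds
  have h9 : |p 1| ≤ 0 := by
    refine ge_of_tendsto hlim ?_
    filter_upwards [Ioo_mem_nhdsGT (show (0:ℝ) < 1 by norm_num)] with r hr
    exact key r hr.1 hr.2
  exact abs_eq_zero.1 (le_antisymm h9 (abs_nonneg _))

theorem fh : S_FH := by
  intro p t
  have hd : ∀ z ∈ Metric.ball (0 : ℂ) 1,
      HasDerivAt (fun z => t * z * evQ z (SS p)) (t * evQ z p) z := by
    intro z hz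
    have h1 := (hasDeriv p z hz).const_mul (t : ℂ)
    refine h1.congr_of_eventuallyEq (Eventually.of_forall fun w => ?_)
    simp only []
    ring
  refine ⟨fun z hz => (hd z hz).differentiableAt.differentiableWithinAt,
    fun z hz => (hd z hz).deriv, ?_, ?_, fun z => evQ_norm z p⟩
  · intro z _
    rw [evQ_I]
    ring
  · rintro ht hp ⟨c, hc⟩
    apply hp
    apply nonconst p (c / t)
    intro z hz
    have h1 : (fun z => t * z * evQ z (SS p)) =ᶠ[𝓝 z] (fun z => c * z) := by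
      filter_upwards [Metric.isOpen_ball.mem_nhds hz] with w hw using hc w hw
    have h2 : HasDerivAt (fun z : ℂ => c * z) c z := by
      simpa using (hasDerivAt_id z).const_mul c
    have h3 := (hd z hz).unique (h2.congr_of_eventuallyEq h1)
    have ht' : (t : ℂ) ≠ 0 := Complex.ofReal_ne_zero.2 ht
    rw [← h3]
    field_simp

end Pool.Agent.W137.HP
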