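import Pool.Agent.W743.HP.Stm
/-! HP-TC (MP_8f331d_an): coefficients of `TT m`. -/
set_option autoImplicit false
open Set Filter Topology

namespace Pool.Agent.W137.HP
open Pool.Agent.W743.HP

/-- coordinate functional -/
noncomputable def co {ι : Type} [DecidableEq ι] (k : ι) : L1 ι →L[ℝ] ℝ :=
  lift (fun i => if i = k then (1 : ℝ) else 0) 1 (by intro i; split <;> simp)

lemma co_apply {ι : Type} [DecidableEq ι] (k : ι) (a : L1 ι) : co k a = a k := by
  unfold co
  rw [lift_apply, tsum_eq_single k]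
  · simp
  · intro i hi
    simp [hi]

lemma co_ue {ι : Type} [DecidableEq ι] (k i : ι) : co k (ue i) = if i = k then (1 : ℝ) else 0 := by
  unfold co
  rw [lift_ue]

lemma TT_hasSum (m : E) (k : ℕ × ℕ) : HasSum (fun i : ℕ × ℕ =>
    m i * ((1 / ((4 * i.1 + i.2 + 1) * (i.2 + 1)) : ℝ) *
      ((1 / 2 : ℝ) ^ (i.2 + 1) * (if (i.1, 0) = k then 1 else 0) -
        (if (i.1, i.2 + 1) = k then 1 else 0)))) (TT m k) := by
  have h := lift_hasSum (fun i : ℕ × ℕ => (1 / ((4 * i.1 + i.2 + 1) * (i.2 + 1)) : ℝ) •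
    ((1 / 2 : ℝ) ^ (i.2 + 1) • (ue (i.1, 0) : E) - ue (i.1, i.2 + 1))) 2 norm_TT_aux m
  have h2 := h.mapL (co k)
  have h3 : co k (lift (fun i : ℕ × ℕ => (1 / ((4 * i.1 + i.2 + 1) * (i.2 + 1)) : ℝ) •
    ((1 / 2 : ℝ) ^ (i.2 + 1) • (ue (i.1, 0) : E) - ue (i.1, i.2 + 1))) 2 norm_TT_aux m) =
      TT m k := by
    rw [co_apply]; rfl
  rw [h3] at h2
  refine h2.congr_fun fun i => ?_
  rw [map_smul, map_smul, map_sub, map_smul, co_ue, co_ue]
  simp only [smul_eq_mul]

lemma NN_hasSum (m : E) (n : ℕ) : HasSum (fun i : ℕ × ℕ =>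
    m i * (((4 * i.1 + 1) * (1 / 2) ^ i.2 / (4 * i.1 + i.2 + 1) : ℝ) *
      (if i.1 = n then 1 else 0))) (NN m n) := by
  have h := lift_hasSum (fun i : ℕ × ℕ =>
    ((4 * i.1 + 1) * (1 / 2) ^ i.2 / (4 * i.1 + i.2 + 1) : ℝ) • (ue i.1 : Q)) 1 norm_NN_aux m
  have h2 := h.mapL (co n)
  have h3 : co n (lift (fun i : ℕ × ℕ =>
    ((4 * i.1 + 1) * (1 / 2) ^ i.2 / (4 * i.1 + i.2 + 1) : ℝ) • (ue i.1 : Q)) 1 norm_NN_aux m) =
      NN m n := by
    rw [co_apply]; rfl
  rw [h3] at h2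
  refine h2.congr_fun fun i => ?_
  rw [map_smul, map_smul, co_ue]
  simp only [smul_eq_mul]

lemma inj_row (n : ℕ) : Function.Injective (fun j : ℕ => (n, j)) := fun a b h => by
  simpa using h

lemma not_row {n : ℕ} {i : ℕ × ℕ} (h : i ∉ Set.range (fun j : ℕ => (n, j))) : i.1 ≠ n := by
  intro h1
  exact h ⟨i.2, by rw [← h1]⟩

theorem tc : S_TC := by
  intro m n
  have h1 : ∀ j, TT m (n, j + 1) = -(m (n, j) / ((4 * n + j + 1) * (j + 1))) := by
    intro j
    refine (TT_hasSum m (n, j + 1)).unique ?_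
    have h2 := hasSum_single (f := fun i : ℕ × ℕ =>
      m i * ((1 / ((4 * i.1 + i.2 + 1) * (i.2 + 1)) : ℝ) *
      ((1 / 2 : ℝ) ^ (i.2 + 1) * (if (i.1, 0) = (n, j + 1) then 1 else 0) -
        (if (i.1, i.2 + 1) = (n, j + 1) then 1 else 0)))) (n, j) (by
        intro i hi
        have e1 : ¬ (i.1, 0) = (n, j + 1) := by simp
        have e2 : ¬ (i.1, i.2 + 1) = (n, j + 1) := by
          intro h
          apply hi
          simp only [Prod.mk.injEq, Nat.add_right_cancel_iff] at h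
          exact Prod.ext h.1 h.2
        rw [if_neg e1, if_neg e2]
        ring)
    have e1 : ¬ ((n, 0) : ℕ × ℕ) = (n, j + 1) := by simp
    simp only [if_neg e1, if_true] at h2
    convert h2 using 1
    ring
  have h2 : HasSum (fun j : ℕ => (1 / 2) ^ (j + 1) / ((4 * n + j + 1) * (j + 1)) * m (n, j))
      (TT m (n, 0)) := by
    have h3 := ((inj_row n).hasSum_iff (fun i hi => by
      have := not_row hi
      have e1 : ¬ (i.1, 0) = (n, 0) := by simp [this]
      have e2 : ¬ (i.1, i.2 + 1) = (n, 0) := by simp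
      rw [if_neg e1, if_neg e2]
      ring)).2 (TT_hasSum m (n, 0))
    refine h3.congr_fun fun j => ?_
    simp only [Function.comp]
    have e2 : ¬ ((n, j + 1) : ℕ × ℕ) = (n, 0) := by simp
    rw [if_neg e2, if_true]
    ring
  refine ⟨h1, h2.tsum_eq.symm, ?_, ?_⟩
  · have h3 : HasSum (fun j : ℕ => (1 / 2) ^ (j + 1) * TT m (n, j + 1)) (-(TT m (n, 0))) := by
      refine h2.neg.congr_fun fun j => ?_
      rw [h1]
      ring
    have h4 := (hasSum_nat_add_iff (f := fun j : ℕ => (1 / 2) ^ j * TT m (n, j)) 1).1 h3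
    simpa using h4
  · have h3 := ((inj_row n).hasSum_iff (fun i hi => by
      have := not_row hi
      rw [if_neg this]
      ring)).2 (NN_hasSum m n)
    have h4 := h3.div_const (4 * (n : ℝ) + 1)
    refine h4.congr_fun fun j => ?_
    simp only [Function.comp]
    rw [h1, if_true]
    have e1 : (4 * (n : ℝ) + 1) ≠ 0 := by positivity
    have e2 : (4 * (n : ℝ) + j + 1) ≠ 0 := by positivity
    have e3 : ((j : ℝ) + 1) ≠ 0 := by positivity
    field_simp

end Pool.Agent.W137.HP
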